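import Pool.Agent.H964.QC.Stm2

/-! # Project QC (helper964): the final limit theorem, task FIN (by helper791) -/

set_option autoImplicit false

open MeasureTheory ProbabilityTheory Filter Finset

namespace Pool.Agent.H791.QC

open Pool.Agent.H964.QC

lemma measurable_PF {Ω : Type} [MeasurableSpace Ω] (om : ℕ × (ℤ × ℤ) → Ω → ℝ)
    (hm : ∀ p, Measurable (om p)) (lam b : ℝ) (n : ℕ) :
    Measurable (fun x : Ω => PF lam b n (fun p => om p x)) := by
  have h1 : ∀ (s : Fin n → Fin 4) (k : Fin n), Measurable (fun x : Ω =>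
      b * om ((k : ℕ) + 1, pos s ((k : ℕ) + 1)) x - lam) := fun s k =>
    ((hm _).const_mul b).sub_const lam
  have h2 : ∀ s : Fin n → Fin 4, Measurable (fun x : Ω =>
      Real.exp (∑ k : Fin n, (b * om ((k : ℕ) + 1, pos s ((k : ℕ) + 1)) x - lam))) := fun s =>
    Real.measurable_exp.comp (Finset.measurable_fun_sum _ fun k _ => h1 s k)
  unfold PF
  exact Measurable.const_mul (Finset.measurable_fun_sum _ fun s _ => h2 s) _

/-- the index of a layer -/
def lay (n j : ℕ) : ℕ := if j ≤ n then n + 1 - j else j + 1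

lemma lay_inj (n : ℕ) : Function.Injective (lay n) := by
  intro i j h
  unfold lay at h
  split_ifs at h <;> omega

lemma noise_of (μ : Measure ℝ) [IsProbabilityMeasure μ] {Ω : Type} [MeasurableSpace Ω]
    (P : Measure Ω) [IsProbabilityMeasure P] (om : ℕ × (ℤ × ℤ) → Ω → ℝ)
    (hm : ∀ p, Measurable (om p)) (hi : iIndepFun om P) (hlaw : ∀ p, P.map (om p) = μ)
    {V : Type} (lft : V → ℤ × ℤ) (hl : Function.Injective lft) (n : ℕ) (b κ : ℝ)
    (h4 : Integrable (fun x => (Real.exp (b * x - Lam μ b) - 1) ^ 4) μ)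
    (h1 : ∫ x, (Real.exp (b * x - Lam μ b) - 1) ∂μ = 0)
    (h2 : ∫ x, (Real.exp (b * x - Lam μ b) - 1) ^ 2 ∂μ = sig2 μ b)
    (h3 : |∫ x, (Real.exp (b * x - Lam μ b) - 1) ^ 3 ∂μ| ≤ κ * sig2 μ b)
    (h5 : ∫ x, (Real.exp (b * x - Lam μ b) - 1) ^ 4 ∂μ ≤ κ * sig2 μ b) :
    Noise P (sig2 μ b) κ (fun (j : ℕ) (v : V) (x : Ω) =>
      Real.exp (b * om (if j ≤ n then n + 1 - j else j + 1, lft v) x - Lam μ b) - 1) := by
  have hg : Measurable (fun x : ℝ => Real.exp (b * x - Lam μ b) - 1) := by fun_prop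
  have hint : ∀ (p : ℕ × (ℤ × ℤ)) (k : ℕ),
      ∫ ω, (Real.exp (b * om p ω - Lam μ b) - 1) ^ k ∂P
        = ∫ x, (Real.exp (b * x - Lam μ b) - 1) ^ k ∂μ := by
    intro p k
    have h := integral_map (μ := P) (φ := om p) (hm p).aemeasurable
      (f := fun x => (Real.exp (b * x - Lam μ b) - 1) ^ k) (hg.pow_const k).aestronglyMeasurable
    rw [hlaw p] at h
    exact h.symm
  refine ⟨fun j v => hg.comp (hm _), ?_, fun j v ω => ?_, fun j v => ?_, fun j v => ?_,
    fun j v => ?_, fun j v => ?_, fun j v => ?_⟩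
  · have hinj : Function.Injective (fun i : ℕ × V => (lay n i.1, lft i.2)) := by
      rintro ⟨i, v⟩ ⟨j, w⟩ h
      have h1 := congrArg Prod.fst h
      have h2 := congrArg Prod.snd h
      exact Prod.ext (lay_inj n h1) (hl h2)
    have h6 := (hi.precomp hinj).comp (fun _ x => Real.exp (b * x - Lam μ b) - 1)
      (fun _ => hg)
    exact h6
  · have := Real.exp_pos (b * om (if j ≤ n then n + 1 - j else j + 1, lft v) ω - Lam μ b)
    linarith
  · have h6 : Integrable (fun x => (Real.exp (b * x - Lam μ b) - 1) ^ 4)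
        (P.map (om (if j ≤ n then n + 1 - j else j + 1, lft v))) := by
      rw [hlaw]
      exact h4
    exact (integrable_map_measure (hg.pow_const 4).aestronglyMeasurable
      (hm _).aemeasurable).1 h6
  · have := hint (if j ≤ n then n + 1 - j else j + 1, lft v) 1
    simp only [pow_one] at this
    rw [this, h1]
  · rw [hint, h2]
  · rw [hint]
    exact h3
  · rw [hint]
    exact h5

lemma RR_zero : RR 0 = 0 := by
  unfold RR
  simp

lemma RR_lower (hRR : S_RR) (n : ℕ) : 1 / 4 * Real.log ((n : ℝ) + 1) ≤ RR n := by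
  have h := hRR.2.2.2.2.2.1 0 n (Nat.zero_le n)
  rw [RR_zero] at h
  simpa using h

lemma exp_eq (u lam L x : ℝ) :
    Complex.exp (Complex.I * (u / lam * (L + 1 / 2 * -x) : ℝ))
      = Complex.exp (u * ((L - 1 / 2 * x) / lam : ℝ) * Complex.I) := by
  congr 1
  push_cast
  ring

/-- the bound for one `n` -/
lemma one_n (hLINK : S_LINK) (μ : Measure ℝ) [IsProbabilityMeasure μ] {Ω : Type}
    [MeasurableSpace Ω] (P : Measure Ω) [IsProbabilityMeasure P] (om : ℕ × (ℤ × ℤ) → Ω → ℝ)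
    (hm : ∀ p, Measurable (om p)) (hi : iIndepFun om P) (hlaw : ∀ p, P.map (om p) = μ)
    {C0 κ C L0 : ℝ}
    (hTOR : ∀ N0 : ℕ, ∃ (V : Type) (_ : Fintype V) (_ : DecidableEq V)
      (W : Wlk V C0 N0) (φ : ℤ × ℤ → V) (lft : V → ℤ × ℤ), Function.Injective lft ∧
      (∀ z : ℤ × ℤ, |z.1| + |z.2| ≤ N0 → lft (φ z) = z) ∧
      (∀ z v, W.K 1 (φ z) v = 1 / 4 * ∑ e : Fin 4, if φ (z + stp e) = v then (1 : ℝ) else 0) ∧
      W.cls 0 (φ 0) ∧ W.d (φ 0) = 0)
    (hMQ : ∀ (V : Type) [Fintype V] [DecidableEq V] (N0 : ℕ) (W : Wlk V C0 N0)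
      (Ω : Type) [MeasurableSpace Ω] (P : Measure Ω) [IsProbabilityMeasure P] (s2 : ℝ)
      (η : ℕ → V → Ω → ℝ)
      (x0 : V) (N : ℕ) (Ls u : ℝ), 0 < s2 → L0 ≤ 1 / s2 → Noise P s2 κ η → W.cls 0 x0 →
      W.d x0 = 0 →
      Ls = 1 / s2 - RR N → L0 ≤ Ls → Ls ≤ 1 / 2 * (1 / s2) → 4 * N ≤ N0 →
      ‖chi W P η u (1 / 2 * Real.log (1 / s2 / Ls)) N (fun x => if x = x0 then 1 else 0) -
        Complex.exp ((-(u ^ 2 / 2 * Real.log (1 / s2 / Ls)) : ℝ))‖ ≤
          C * (1 + u ^ 4) * Ls ^ (-(1 / 4) : ℝ))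
    (hC : 0 ≤ C) (n : ℕ) (b : ℝ)
    (h4 : Integrable (fun x => (Real.exp (b * x - Lam μ b) - 1) ^ 4) μ)
    (h1 : ∫ x, (Real.exp (b * x - Lam μ b) - 1) ∂μ = 0)
    (h2 : ∫ x, (Real.exp (b * x - Lam μ b) - 1) ^ 2 ∂μ = sig2 μ b)
    (h3 : |∫ x, (Real.exp (b * x - Lam μ b) - 1) ^ 3 ∂μ| ≤ κ * sig2 μ b)
    (h5 : ∫ x, (Real.exp (b * x - Lam μ b) - 1) ^ 4 ∂μ ≤ κ * sig2 μ b)
    (hs2 : 0 < sig2 μ b) (hL0 : L0 ≤ 1 / sig2 μ b) (hLs : L0 ≤ 1 / sig2 μ b - RR n)
    (hLs0 : 0 < 1 / sig2 μ b - RR n)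
    (hx : 1 - RR n * sig2 μ b ≤ 1 / 2) (hx0 : 0 < 1 - RR n * sig2 μ b)
    (hx1 : 1 ≤ -Real.log (1 - RR n * sig2 μ b)) (u : ℝ) :
    ‖charFun (P.map (fun x => (Real.log (PF (Lam μ b) b n (fun p => om p x))
        - 1 / 2 * Real.log (1 - RR n * sig2 μ b)) /
        Real.sqrt (-Real.log (1 - RR n * sig2 μ b)))) u - charFun (gaussianReal 0 1) u‖
      ≤ C * (1 + u ^ 4) * (1 / sig2 μ b - RR n) ^ (-(1 / 4) : ℝ) := by
  obtain ⟨V, _, _, W, φ, lft, hl, hlft, hK, hcls, hd⟩ := hTOR (4 * n)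
  have hN := noise_of μ P om hm hi hlaw lft hl n b κ h4 h1 h2 h3 h5
  set s2 := sig2 μ b with hs2def
  set x := 1 - RR n * s2 with hxdef
  set lam := Real.sqrt (-Real.log x) with hlam
  have hlam2 : lam ^ 2 = -Real.log x := Real.sq_sqrt (by linarith)
  have hlam1 : 1 ≤ lam := by
    rw [hlam]
    exact Real.one_le_sqrt.2 hx1
  have hlam0 : 0 < lam := by linarith
  have hLsx : 1 / s2 - RR n = x / s2 := by
    rw [hxdef]
    field_simp
  have hlog : Real.log (1 / s2 / (1 / s2 - RR n)) = -Real.log x := by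
    rw [hLsx]
    have : 1 / s2 / (x / s2) = x⁻¹ := by
      field_simp
    rw [this, Real.log_inv]
  have hM := hMQ V (4 * n) W Ω P s2 _ (φ 0) n (1 / s2 - RR n) (u / lam) hs2 hL0 hN hcls hd rfl
    hLs (by rw [hLsx]; rw [div_le_iff₀ hs2]; field_simp; linarith) (le_refl _)
  rw [hlog] at hM
  have hexp : Complex.exp ((-((u / lam) ^ 2 / 2 * -Real.log x) : ℝ))
      = charFun (gaussianReal 0 1) u := by
    rw [charFun_gaussianReal, ← hlam2]
    congr 1
    have : (u / lam) ^ 2 / 2 * lam ^ 2 = u ^ 2 / 2 := by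
      field_simp
    rw [this]
    push_cast
    simp
  have hchi : chi W P (fun (j : ℕ) (v : V) (x : Ω) =>
      Real.exp (b * om (if j ≤ n then n + 1 - j else j + 1, lft v) x - Lam μ b) - 1) (u / lam)
        (1 / 2 * -Real.log x) n (fun y => if y = φ 0 then 1 else 0)
      = charFun (P.map (fun x' => (Real.log (PF (Lam μ b) b n (fun p => om p x'))
        - 1 / 2 * Real.log x) / lam)) u := by
    have hmeas : Measurable (fun x' => (Real.log (PF (Lam μ b) b n (fun p => om p x'))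
        - 1 / 2 * Real.log x) / lam) := by
      have h6 := measurable_PF om hm (Lam μ b) b n
      exact ((Real.measurable_log.comp h6).sub_const _).div_const _
    have h9 : charFun (P.map (fun x' => (Real.log (PF (Lam μ b) b n (fun p => om p x'))
        - 1 / 2 * Real.log x) / lam)) u = ∫ ω, Complex.exp (u * (((Real.log (PF (Lam μ b) b n
          (fun p => om p ω)) - 1 / 2 * Real.log x) / lam : ℝ)) * Complex.I) ∂P := by
      rw [charFun_apply_real]
      exact integral_map (f := fun y : ℝ => Complex.exp (u * y * Complex.I)) hmeas.aemeasurable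
        (by fun_prop)
    rw [h9]
    unfold chi
    congr 1
    funext ω
    have h7 : ∑ y, (if y = φ 0 then (1 : ℝ) else 0) * Zr W (cfg (fun (j : ℕ) (v : V) (x : Ω) =>
      Real.exp (b * om (if j ≤ n then n + 1 - j else j + 1, lft v) x - Lam μ b) - 1) ω) n y
        = PF (Lam μ b) b n (fun p => om p ω) := by
      have h8 := hLINK C0 n (4 * n) V W φ lft (by omega) hlft hK (Lam μ b) b (fun p => om p ω)
      rw [← h8]
      simp only [ite_mul, one_mul, zero_mul, Finset.sum_ite_eq', Finset.mem_univ, if_true]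
      rfl
    rw [h7]
    exact exp_eq u lam _ _
  rw [hexp, hchi] at hM
  refine hM.trans ?_
  have hLpos : 0 ≤ (1 / s2 - RR n) ^ (-(1 / 4) : ℝ) := Real.rpow_nonneg hLs0.le _
  refine mul_le_mul_of_nonneg_right (mul_le_mul_of_nonneg_left ?_ hC) hLpos
  have : (u / lam) ^ 4 ≤ u ^ 4 := by
    rw [div_pow]
    refine div_le_self (by positivity) ?_
    exact one_le_pow₀ hlam1
  linarith

theorem t_FIN : S_FIN := by
  intro hMQ hTOR hLAW hLINK hRR _ μ _ hexpint hmean hvar Ω _ P _ om hm hi hlaw β hβ hlim1 hlim2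
  obtain ⟨C0, hC0, hTOR⟩ := hTOR
  obtain ⟨κ, b0, c0, hκ, hb0, hc0, hbig, hsmall⟩ := hLAW μ hexpint hmean hvar
  obtain ⟨C, L0, hC, hL0, hMQ⟩ := hMQ C0 κ hC0 (by linarith)
  have e1 : ∀ᶠ n : ℕ in atTop, 0 < 1 - RR n * sig2 μ (β n) := by
    filter_upwards [hlim1.eventually_gt_atTop 0, eventually_gt_atTop 1] with n h1 h2
    have h3 : 0 < Real.log n := Real.log_pos (by exact_mod_cast h2)
    exact (mul_pos_iff_of_pos_left h3).1 h1
  have e2 : ∀ᶠ n : ℕ in atTop, 1 - RR n * sig2 μ (β n) < 1 / 2 :=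
    hlim2.eventually_lt_const (by norm_num)
  have e3 : ∀ᶠ n : ℕ in atTop, 1 - RR n * sig2 μ (β n) < Real.exp (-1) :=
    hlim2.eventually_lt_const (Real.exp_pos _)
  have hlogn : Tendsto (fun n : ℕ => 1 / 4 * Real.log ((n : ℝ) + 1)) atTop atTop := by
    refine Tendsto.const_mul_atTop (by norm_num) (Real.tendsto_log_atTop.comp ?_)
    exact tendsto_atTop_add_const_right _ _ tendsto_natCast_atTop_atTop
  have hRRlim : Tendsto (fun n => RR n) atTop atTop :=
    tendsto_atTop_mono (RR_lower hRR) hlogn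
  have e4 : ∀ᶠ n : ℕ in atTop, L0 ≤ RR n := hRRlim.eventually_ge_atTop L0
  have e5 : ∀ᶠ n : ℕ in atTop, 1 / c0 ≤ RR n := hRRlim.eventually_ge_atTop (1 / c0)
  have e6 : ∀ᶠ n : ℕ in atTop, 0 < RR n := hRRlim.eventually_gt_atTop 0
  -- the variance
  have e7 : ∀ᶠ n : ℕ in atTop, 0 < sig2 μ (β n) ∧ sig2 μ (β n) < c0 ∧
      RR n ≤ 1 / sig2 μ (β n) := by
    filter_upwards [e1, e2, e5, e6] with n h1 h2 h5 h6
    have h7 : 0 < RR n * sig2 μ (β n) := by linarith
    have h8 : 0 < sig2 μ (β n) := (mul_pos_iff_of_pos_left h6).1 h7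
    refine ⟨h8, ?_, ?_⟩
    · rw [div_le_iff₀ hc0] at h5
      by_contra hcon
      push Not at hcon
      have h9 : RR n * c0 ≤ RR n * sig2 μ (β n) := mul_le_mul_of_nonneg_left hcon h6.le
      linarith
    · rw [le_div_iff₀ h8]
      linarith
  have e8 : ∀ᶠ n : ℕ in atTop, 1 / 4 * (Real.log n * (1 - RR n * sig2 μ (β n))) ≤
      1 / sig2 μ (β n) - RR n := by
    filter_upwards [e1, e7, eventually_gt_atTop 0] with n h1 h7 hn
    obtain ⟨h8, _, h9⟩ := h7
    have h10 : 1 / sig2 μ (β n) - RR n = (1 - RR n * sig2 μ (β n)) * (1 / sig2 μ (β n)) := by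
      field_simp
    have hn' : (0 : ℝ) < n := by exact_mod_cast hn
    have h11 : 1 / 4 * Real.log n ≤ 1 / sig2 μ (β n) := by
      have h12 := RR_lower hRR n
      have h13 : Real.log n ≤ Real.log ((n : ℝ) + 1) := Real.log_le_log hn' (by linarith)
      linarith
    rw [h10]
    calc 1 / 4 * (Real.log n * (1 - RR n * sig2 μ (β n)))
        = (1 - RR n * sig2 μ (β n)) * (1 / 4 * Real.log n) := by ring
      _ ≤ _ := mul_le_mul_of_nonneg_left h11 h1.le
  have hLs : Tendsto (fun n : ℕ => 1 / sig2 μ (β n) - RR n) atTop atTop :=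
    tendsto_atTop_mono' _ e8 (Tendsto.const_mul_atTop (by norm_num) hlim1)
  have e9 : ∀ᶠ n : ℕ in atTop, L0 ≤ 1 / sig2 μ (β n) - RR n := hLs.eventually_ge_atTop L0
  have e10 : ∀ᶠ n : ℕ in atTop, 0 < 1 / sig2 μ (β n) - RR n := hLs.eventually_gt_atTop 0
  have hmeas : ∀ n : ℕ, Measurable (fun x : Ω =>
      (Real.log (PF (Lam μ (β n)) (β n) n (fun p => om p x))
        - 1 / 2 * Real.log (1 - RR n * sig2 μ (β n))) /
        Real.sqrt (-Real.log (1 - RR n * sig2 μ (β n)))) := by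
    intro n
    have h6 := measurable_PF om hm (Lam μ (β n)) (β n) n
    exact ((Real.measurable_log.comp h6).sub_const _).div_const _
  have hmap : (gaussianReal 0 1).map (fun x : ℝ => x) = gaussianReal 0 1 := Measure.map_id'
  refine ⟨fun n => (hmeas n).aemeasurable, measurable_id'.aemeasurable, ?_⟩
  refine ProbabilityMeasure.tendsto_iff_tendsto_charFun.2 fun u => ?_
  change Tendsto (fun n : ℕ => charFun (P.map (fun x : Ω =>
      (Real.log (PF (Lam μ (β n)) (β n) n (fun p => om p x))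
        - 1 / 2 * Real.log (1 - RR n * sig2 μ (β n))) /
        Real.sqrt (-Real.log (1 - RR n * sig2 μ (β n))))) u) atTop
    (nhds (charFun ((gaussianReal 0 1).map (fun x : ℝ => x)) u))
  rw [hmap, tendsto_iff_norm_sub_tendsto_zero]
  have hbound : Tendsto (fun n : ℕ => C * (1 + u ^ 4) *
      (1 / sig2 μ (β n) - RR n) ^ (-(1 / 4) : ℝ)) atTop (nhds 0) := by
    have h1 := (tendsto_rpow_neg_atTop (show (0 : ℝ) < 1 / 4 by norm_num)).comp hLs
    have h2 := h1.const_mul (C * (1 + u ^ 4))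
    rw [mul_zero] at h2
    exact h2
  refine squeeze_zero' (Eventually.of_forall fun n => norm_nonneg _) ?_ hbound
  filter_upwards [e1, e2, e3, e4, e7, e9, e10] with n h1 h2 h3 h4 h7 h9 h10
  obtain ⟨h8, h8', h8''⟩ := h7
  have hb : β n ≤ b0 := by
    by_contra hcon
    push Not at hcon
    have := hbig (β n) hcon.le
    linarith
  obtain ⟨i4, i1, i2, i3, i5⟩ := hsmall (β n) (hβ n) hb
  refine one_n hLINK μ P om hm hi hlaw hTOR hMQ (by linarith) n (β n) i4 i1 i2 i3 i5 h8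
    (h4.trans h8'') h9 h10 h2.le h1 ?_ u
  have h11 : Real.log (1 - RR n * sig2 μ (β n)) ≤ Real.log (Real.exp (-1)) :=
    Real.log_le_log h1 h3.le
  rw [Real.log_exp] at h11
  linarith

end Pool.Agent.H791.QC
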